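import Pool.Agent.Helper20_X1.Par
import Pool.Agent.Helper36_X1.Stmts3

/-!
# CED: the centraliser of `U`
-/

open scoped BigOperators

noncomputable section

namespace Pool.Agent.PP.X1.H20

section core

variable {ℓ : ℕ} {G : Type} [Group G] (R : RGD ℓ G)

/-- the negative of a root is a root -/
theorem neg_mem (orb : OrbStmt) {b : R.E} (hb : b ∈ R.Φ) : -b ∈ R.Φ := by
  obtain ⟨w, i, c, hc, rfl, hci⟩ := orb ℓ G R b hb
  have h1 : c • R.a i ∈ R.ray i := ⟨hci, c, by linarith, rfl⟩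
  have h2 := (R.neg_of_ray h1).1
  have h3 : -(c • R.sw w (R.a i)) = R.sw w (-(c • R.a i)) := by
    rw [R.sw_neg, R.sw_smul]
  rw [h3]
  exact R.sw_mem h2

theorem neg_pos_of (orb : OrbStmt) {b : R.E} (hb : b ∈ R.neg) : -b ∈ R.pos :=
  ⟨neg_mem R orb hb.1, hb.2⟩

theorem neg_neg_of (orb : OrbStmt) {b : R.E} (hb : b ∈ R.pos) : -b ∈ R.neg :=
  ⟨neg_mem R orb hb.1, by rw [neg_neg]; exact hb.2⟩

theorem long_neg (orb : OrbStmt) {w : List (Fin R.r)} (hw : ∀ b ∈ R.pos, R.sw w b ∈ R.neg)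
    {b : R.E} (hb : b ∈ R.neg) : R.sw w b ∈ R.pos := by
  have h1 := hw _ (neg_pos_of R orb hb)
  rw [R.sw_neg] at h1
  have h2 := neg_pos_of R orb h1
  rwa [neg_neg] at h2

theorem long_rev (orb : OrbStmt) {w : List (Fin R.r)} (hw : ∀ b ∈ R.pos, R.sw w b ∈ R.neg) :
    ∀ b ∈ R.pos, R.sw w.reverse b ∈ R.neg := by
  intro b hb
  rcases R.pos_or_neg (R.sw_mem (w := w.reverse) hb.1) with h | h
  · exfalso
    have h1 := hw _ h
    rw [R.sw_sw_reverse] at h1
    exact R.not_pos_neg hb h1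
  · exact h

/-- a longest word conjugates `U` to `V` -/
theorem long_V (orb : OrbStmt) {w : List (Fin R.r)} (hw : ∀ b ∈ R.pos, R.sw w b ∈ R.neg)
    (y : G) : R.nw w * y * (R.nw w)⁻¹ ∈ R.V ↔ y ∈ R.U := by
  have h1 : R.sw w '' R.pos = R.neg := by
    apply Set.Subset.antisymm
    · rintro _ ⟨b, hb, rfl⟩
      exact hw b hb
    · intro b hb
      refine ⟨R.sw w.reverse b, long_neg R orb (long_rev R orb hw) hb, R.sw_sw_reverse w b⟩
  unfold RGD.V RGD.U
  rw [← h1]
  exact R.gp_nw R.pos_sub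

theorem lev_univ : R.lev Finset.univ = R.Φ := by
  classical
  apply Set.Subset.antisymm (R.lev_sub _)
  intro b hb
  refine ⟨hb, ?_⟩
  rcases R.pos_or_neg hb with h | h
  · exact span_of_cf R h.2 fun j hj => absurd (Finset.mem_univ j) hj
  · have h1 := span_of_cf R (J := Finset.univ) h.2 fun j hj => absurd (Finset.mem_univ j) hj
    have h2 := Submodule.neg_mem _ h1
    rwa [neg_neg] at h2

theorem mem_B_iff [Fact ℓ.Prime] [Finite G] (syl : SylStmt) (g : G) :
    g ∈ R.B ↔ ∀ x ∈ R.U, g * x * g⁻¹ ∈ R.U :=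
  ⟨fun h x hx => R.B_U h hx, (syl ℓ G R).2.2.1 g⟩

theorem map_B (orb : OrbStmt) {w : List (Fin R.r)} (hw : ∀ b ∈ R.pos, R.sw w b ∈ R.neg) (y : G) :
    R.nw w * y * (R.nw w)⁻¹ ∈ R.T ⊔ R.V ↔ y ∈ R.B := by
  have h1 : R.B.map (MulAut.conj (R.nw w)).toMonoidHom = R.T ⊔ R.V := by
    unfold RGD.B
    rw [Subgroup.map_sup]
    congr 1
    · ext x
      rw [Subgroup.mem_map]
      constructor
      · rintro ⟨y, hy, rfl⟩
        exact (R.T_nw).mpr hy
      · intro hx
        refine ⟨(R.nw w)⁻¹ * x * R.nw w, ?_, ?_⟩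
        · rw [← R.T_nw (w := w)]
          have : R.nw w * ((R.nw w)⁻¹ * x * R.nw w) * (R.nw w)⁻¹ = x := by group
          rw [this]
          exact hx
        · show R.nw w * ((R.nw w)⁻¹ * x * R.nw w) * (R.nw w)⁻¹ = x
          group
    · ext x
      rw [Subgroup.mem_map]
      constructor
      · rintro ⟨y, hy, rfl⟩
        exact (long_V R orb hw y).mpr hy
      · intro hx
        refine ⟨(R.nw w)⁻¹ * x * R.nw w, ?_, ?_⟩
        · rw [← long_V R orb hw]
          have : R.nw w * ((R.nw w)⁻¹ * x * R.nw w) * (R.nw w)⁻¹ = x := by group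
          rw [this]
          exact hx
        · show R.nw w * ((R.nw w)⁻¹ * x * R.nw w) * (R.nw w)⁻¹ = x
          group
  rw [← h1, Subgroup.mem_map]
  constructor
  · rintro ⟨z, hz, h2⟩
    have h3 : R.nw w * z * (R.nw w)⁻¹ = R.nw w * y * (R.nw w)⁻¹ := h2
    have h4 : z = y := mul_left_cancel (mul_right_cancel h3)
    rwa [← h4]
  · intro hy
    exact ⟨y, hy, rfl⟩

/-- a conjugate of `U` which meets `U` trivially is a conjugate of `V` by an element of `U` -/
theorem opp_conj (bru : BruhStmt) (orb : OrbStmt) {g : G}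
    (hg : ∀ x ∈ R.U, g⁻¹ * x * g ∈ R.U → x = 1) :
    ∃ u ∈ R.U, ∀ x, g⁻¹ * x * g ∈ R.U ↔ u⁻¹ * x * u ∈ R.V := by
  classical
  obtain ⟨-, bru2, bru3, -, -, -⟩ := bru ℓ G R
  obtain ⟨w, -, b, hb, b', hb', hgw⟩ := bru2 Finset.univ g (by rw [bru3]; exact Subgroup.mem_top g)
  obtain ⟨u, hu, t, ht, hbt⟩ := R.mem_B.mp hb
  -- first reduction
  have h1 : ∀ x, g⁻¹ * x * g ∈ R.U ↔ (R.nw w)⁻¹ * (b⁻¹ * x * b) * R.nw w ∈ R.U := by
    intro x
    have e1 : g⁻¹ * x * g = b'⁻¹ * ((R.nw w)⁻¹ * (b⁻¹ * x * b) * R.nw w) * b'⁻¹⁻¹ := by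
      rw [hgw]
      group
    constructor
    · intro h
      rw [e1] at h
      have h2 := R.B_U hb' h
      have h3 : b' * (b'⁻¹ * ((R.nw w)⁻¹ * (b⁻¹ * x * b) * R.nw w) * b'⁻¹⁻¹) * b'⁻¹ =
        (R.nw w)⁻¹ * (b⁻¹ * x * b) * R.nw w := by group
      rwa [h3] at h2
    · intro h
      rw [e1]
      exact R.B_U (R.B.inv_mem hb') h
  have h2 : ∀ i, R.sw w.reverse (R.a i) ∈ R.neg := by
    intro i
    rcases R.pos_or_neg (R.sw_mem (w := w.reverse) (R.mem i)) with h | h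
    · exfalso
      apply R.nt i
      rw [eq_bot_iff]
      intro x0 hx0
      rw [Subgroup.mem_bot]
      have h3 : (R.nw w)⁻¹ * x0 * R.nw w ∈ R.U := by
        apply R.X_le_U h
        rw [← R.X_nw (w := w) h.1, R.sw_sw_reverse]
        have : R.nw w * ((R.nw w)⁻¹ * x0 * R.nw w) * (R.nw w)⁻¹ = x0 := by group
        rw [this]
        exact hx0
      have h4 : b * x0 * b⁻¹ ∈ R.U := R.B_U hb (R.X_le_U (R.a_pos i) hx0)
      have h5 : b * x0 * b⁻¹ = 1 := by
        apply hg _ h4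
        rw [h1]
        have : b⁻¹ * (b * x0 * b⁻¹) * b = x0 := by group
        rw [this]
        exact h3
      have h6 : x0 = b⁻¹ * (b * x0 * b⁻¹) * b := by group
      rw [h6, h5]
      group
    · exact h
  have h3 : ∀ b ∈ R.pos, R.sw w.reverse b ∈ R.neg := by
    intro d hd
    refine ⟨R.sw_mem hd.1, ?_⟩
    obtain ⟨k, hk, hdk⟩ := hd.2
    choose kk hkk hkk2 using fun i => (h2 i).2
    have e1 : ∀ s : Finset (Fin R.r), Nn R.a (-R.sw w.reverse (∑ i ∈ s, k i • R.a i)) := by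
      intro s
      induction s using Finset.induction_on with
      | empty =>
        rw [Finset.sum_empty]
        have h0 : R.sw w.reverse (0 : R.E) = 0 := by
          have := R.sw_smul w.reverse 0 (0 : R.E)
          rwa [zero_smul, zero_smul] at this
        rw [h0, neg_zero]
        exact ⟨fun _ => 0, fun _ => le_rfl, by simp⟩
      | insert i s his ih =>
        rw [Finset.sum_insert his, R.sw_add, neg_add, R.sw_smul, ← smul_neg]
        exact R.nn_add (R.nn_smul (hk i) (h2 i).2) ih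
    rw [hdk]
    exact e1 _
  have h4 : ∀ b ∈ R.pos, R.sw w b ∈ R.neg := by
    have := long_rev R orb h3
    rwa [List.reverse_reverse] at this
  refine ⟨u, hu, fun x => ?_⟩
  rw [h1, ← long_V R orb h4]
  have e2 : R.nw w * ((R.nw w)⁻¹ * (b⁻¹ * x * b) * R.nw w) * (R.nw w)⁻¹ = b⁻¹ * x * b := by group
  rw [e2, hbt]
  have e3 : (u * t)⁻¹ * x * (u * t) = t⁻¹ * (u⁻¹ * x * u) * t⁻¹⁻¹ := by group
  rw [e3]
  constructor
  · intro h
    have h5 := R.T_gp R.neg_sub ht h
    have h6 : t * (t⁻¹ * (u⁻¹ * x * u) * t⁻¹⁻¹) * t⁻¹ = u⁻¹ * x * u := by group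
    rwa [h6] at h5
  · intro h
    exact R.T_gp R.neg_sub (R.T.inv_mem ht) h

theorem ced_core [Fact ℓ.Prime] [Finite G] (par : ParStmt) (syl : SylStmt) (bru : BruhStmt)
    (opv : OpvStmt) (trv : TrvStmt) (lng : LngStmt) (orb : OrbStmt) (φ : MulAut G)
    (hφ : ∀ u ∈ R.U, φ u = u) (m : ℕ) (hm : ¬ ℓ ∣ m) (hφm : φ ^ m = 1) :
    ∀ x ∈ R.gp R.Φ, φ x = x := by
  classical
  obtain ⟨-, -, opv3, opv4, opv5⟩ := opv ℓ G R
  obtain ⟨w, -, hw'⟩ := (lng ℓ G R Finset.univ).2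
  have hw : ∀ b ∈ R.pos, R.sw w b ∈ R.neg := by
    intro b hb
    apply hw' b
    rw [lev_univ]
    exact ⟨hb, hb.1⟩
  have hφU : ∀ x, φ x ∈ R.U ↔ x ∈ R.U := by
    intro x
    constructor
    · intro h
      have h1 := hφ _ h
      have h2 : φ x = x := φ.injective h1
      rwa [h2] at h
    · intro h
      rw [hφ x h]
      exact h
  -- `φ V` is a conjugate of `V`
  obtain ⟨u, hu, huV⟩ : ∃ u ∈ R.U, ∀ x, (φ (R.nw w))⁻¹ * x * φ (R.nw w) ∈ R.U ↔
      u⁻¹ * x * u ∈ R.V := by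
    apply opp_conj R bru orb
    intro x hx h
    have h1 : (φ (R.nw w))⁻¹ * x * φ (R.nw w) = φ ((R.nw w)⁻¹ * φ.symm x * R.nw w) := by
      rw [map_mul, map_mul, map_inv, MulEquiv.apply_symm_apply]
    rw [h1, hφU, ← long_V R orb hw] at h
    have h2 : R.nw w * ((R.nw w)⁻¹ * φ.symm x * R.nw w) * (R.nw w)⁻¹ = φ.symm x := by group
    rw [h2] at h
    have h3 : φ.symm x = x := by
      rw [MulEquiv.symm_apply_eq]
      exact (hφ x hx).symm
    rw [h3] at h
    have h4 : x ∈ R.U ⊓ R.V := ⟨hx, h⟩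
    rwa [R.U_inf_V, Subgroup.mem_bot] at h4
  have hV1 : ∀ v, v ∈ R.V ↔ u⁻¹ * φ v * u ∈ R.V := by
    intro v
    rw [← huV]
    have h1 : (φ (R.nw w))⁻¹ * φ v * φ (R.nw w) = φ ((R.nw w)⁻¹ * v * R.nw w) := by
      rw [map_mul, map_mul, map_inv]
    rw [h1, hφU, ← long_V R orb hw]
    have h2 : R.nw w * ((R.nw w)⁻¹ * v * R.nw w) * (R.nw w)⁻¹ = v := by group
    rw [h2]
  have hVk : ∀ (k : ℕ) v, v ∈ R.V ↔ (u ^ k)⁻¹ * (φ ^ k) v * u ^ k ∈ R.V := by
    intro k
    induction k with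
    | zero => intro v; simp
    | succ k ih =>
      intro v
      rw [ih v, hV1 ((u ^ k)⁻¹ * (φ ^ k) v * u ^ k)]
      have h1 : φ (u ^ k) = u ^ k := by rw [map_pow, hφ u hu]
      have h2 : u⁻¹ * φ ((u ^ k)⁻¹ * (φ ^ k) v * u ^ k) * u =
          (u ^ (k + 1))⁻¹ * (φ ^ (k + 1)) v * u ^ (k + 1) := by
        rw [map_mul, map_mul, map_inv, h1, pow_succ' φ, MulAut.mul_apply, pow_succ u]
        rw [mul_inv_rev]
        simp only [mul_assoc]
      rw [h2]
  have hum : u ^ m = 1 := by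
    have h1 := opv5 (u ^ m)⁻¹ (fun v hv => by
      have h2 := (hVk m v).mp hv
      rw [hφm, MulAut.one_apply] at h2
      rwa [inv_inv]) (R.U.inv_mem (R.U.pow_mem hu m))
    rwa [inv_eq_one] at h1
  have hu1 : u = 1 := by
    obtain ⟨a, ha⟩ := (syl ℓ G R).1 ⟨u, hu⟩
    have h1 : u ^ ℓ ^ a = 1 := congrArg Subtype.val ha
    have h2 : Nat.Coprime (ℓ ^ a) m :=
      Nat.Coprime.pow_left a ((Nat.Prime.coprime_iff_not_dvd (Fact.out : ℓ.Prime)).mpr hm)
    have h3 : orderOf u ∣ 1 := by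
      rw [← h2]
      exact Nat.dvd_gcd (orderOf_dvd_of_pow_eq_one h1) (orderOf_dvd_of_pow_eq_one hum)
    rw [← orderOf_eq_one_iff]
    exact Nat.dvd_one.mp h3
  have hφV : ∀ v, φ v ∈ R.V ↔ v ∈ R.V := by
    intro v
    rw [hV1 v, hu1]
    simp
  -- `φ B = B`, `φ P = P`
  have hφB : ∀ g, φ g ∈ R.B ↔ g ∈ R.B := by
    intro g
    rw [mem_B_iff R syl, mem_B_iff R syl]
    constructor
    · intro h x hx
      have h1 := h x hx
      have h2 : φ g * x * (φ g)⁻¹ = φ (g * x * g⁻¹) := by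
        rw [map_mul, map_mul, map_inv, hφ x hx]
      rwa [h2, hφU] at h1
    · intro h x hx
      have h2 : φ g * x * (φ g)⁻¹ = φ (g * x * g⁻¹) := by
        rw [map_mul, map_mul, map_inv, hφ x hx]
      rw [h2, hφU]
      exact h x hx
  have hφTV : ∀ g, φ g ∈ R.T ⊔ R.V ↔ g ∈ R.T ⊔ R.V := by
    have h1 : ∀ g, g ∈ R.T ⊔ R.V ↔ ∀ v ∈ R.V, g * v * g⁻¹ ∈ R.V := by
      intro g
      have h2 : g = R.nw w * ((R.nw w)⁻¹ * g * R.nw w) * (R.nw w)⁻¹ := by group
      rw [h2, map_B R orb hw, mem_B_iff R syl, ← h2]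
      constructor
      · intro h v hv
        have h3 : (R.nw w)⁻¹ * v * R.nw w ∈ R.U := by
          rw [← long_V R orb hw]
          have : R.nw w * ((R.nw w)⁻¹ * v * R.nw w) * (R.nw w)⁻¹ = v := by group
          rwa [this]
        have h4 := (long_V R orb hw _).mpr (h _ h3)
        have h5 : R.nw w * ((R.nw w)⁻¹ * g * R.nw w * ((R.nw w)⁻¹ * v * R.nw w) *
            ((R.nw w)⁻¹ * g * R.nw w)⁻¹) * (R.nw w)⁻¹ = g * v * g⁻¹ := by group
        rwa [h5] at h4
      · intro h x hx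
        have h3 := h _ ((long_V R orb hw x).mpr hx)
        rw [← long_V R orb hw]
        have h5 : R.nw w * ((R.nw w)⁻¹ * g * R.nw w * x * ((R.nw w)⁻¹ * g * R.nw w)⁻¹) *
            (R.nw w)⁻¹ = g * (R.nw w * x * (R.nw w)⁻¹) * g⁻¹ := by group
        rwa [h5]
    intro g
    rw [h1, h1]
    constructor
    · intro h v hv
      have h3 := h _ ((hφV v).mpr hv)
      have h4 : φ g * φ v * (φ g)⁻¹ = φ (g * v * g⁻¹) := by rw [map_mul, map_mul, map_inv]
      rwa [h4, hφV] at h3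
    · intro h v hv
      have h3 : φ.symm v ∈ R.V := by
        rw [← hφV, MulEquiv.apply_symm_apply]
        exact hv
      have h4 := (hφV _).mpr (h _ h3)
      rw [map_mul, map_mul, map_inv, MulEquiv.apply_symm_apply] at h4
      exact h4
  have hφT : ∀ t, φ t ∈ R.T ↔ t ∈ R.T := by
    intro t
    rw [← opv4, Subgroup.mem_inf, Subgroup.mem_inf, hφB, hφTV]
  have hφP : ∀ J g, φ g ∈ R.PJ J ↔ g ∈ R.PJ J := by
    intro J g
    rw [(par ℓ G R J).1, (par ℓ G R J).1]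
    have hUJ : ∀ x, φ x ∈ R.UJ J ↔ x ∈ R.UJ J := by
      intro x
      constructor
      · intro h
        have h1 := hφ _ (UJ_le_U R J h)
        have h2 : φ x = x := φ.injective h1
        rwa [h2] at h
      · intro h
        rw [hφ x (UJ_le_U R J h)]
        exact h
    constructor
    · intro h x hx
      have h1 := h x hx
      have h2 : φ g * x * (φ g)⁻¹ = φ (g * x * g⁻¹) := by
        rw [map_mul, map_mul, map_inv, hφ x (UJ_le_U R J hx)]
      rwa [h2, hUJ] at h1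
    · intro h x hx
      have h2 : φ g * x * (φ g)⁻¹ = φ (g * x * g⁻¹) := by
        rw [map_mul, map_mul, map_inv, hφ x (UJ_le_U R J hx)]
      rw [h2, hUJ]
      exact h x hx
  have hXm : ∀ i x, x ∈ R.X (-R.a i) ↔ x ∈ R.V ∧ x ∈ R.PJ {i} := by
    intro i x
    constructor
    · intro h
      refine ⟨R.X_le_V ⟨R.neg_a_mem i, by rw [neg_neg]; exact R.nn_a i⟩ h, ?_⟩
      refine (le_sup_right : R.gp (R.pos ∪ R.lev {i}) ≤ R.PJ {i}) (R.X_le_gp (Or.inr ?_) h)
      refine ⟨R.neg_a_mem i, Submodule.neg_mem _ (Submodule.subset_span ⟨i, ?_, rfl⟩)⟩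
      simp
    · rintro ⟨h1, h2⟩
      exact opv3 i x h1 h2
  have hφX : ∀ i x, φ x ∈ R.X (-R.a i) ↔ x ∈ R.X (-R.a i) := by
    intro i x
    rw [hXm, hXm, hφV, hφP]
  have hneg : ∀ i, ∀ x ∈ R.X (-R.a i), φ x = x := fun i =>
    trv ℓ G R i φ (fun x hx => hφ x (R.X_le_U (R.a_pos i) hx)) hφT (hφX i)
  -- the fixed points
  let Fix : Subgroup G :=
    { carrier := {x | φ x = x}
      mul_mem' := fun {x y} hx hy => by
        show φ (x * y) = x * y
        rw [map_mul, hx, hy]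
      one_mem' := map_one φ
      inv_mem' := fun {x} hx => by
        show φ x⁻¹ = x⁻¹
        rw [map_inv, hx] }
  have hn : ∀ i, φ (R.n i) = R.n i := by
    intro i
    have h1 : R.X (R.a i) ⊔ R.X (-R.a i) ≤ Fix :=
      sup_le (fun x hx => hφ x (R.X_le_U (R.a_pos i) hx)) (fun x hx => hneg i x hx)
    exact h1 (R.nmem i)
  have hnw : ∀ v : List (Fin R.r), φ (R.nw v) = R.nw v := by
    intro v
    induction v with
    | nil => rw [R.nw_nil, map_one]
    | cons i v ih => rw [R.nw_cons, map_mul, hn, ih]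
  have hfin : R.gp R.Φ ≤ Fix := by
    apply R.gp_le
    intro b hb x hx
    show φ x = x
    rcases R.pos_or_neg hb with h | h
    · exact hφ x (R.X_le_U h hx)
    · have h1 : R.nw w * x * (R.nw w)⁻¹ ∈ R.U :=
        R.X_le_U (long_neg R orb hw h) ((R.X_nw hb).mpr hx)
      have h2 := hφ _ h1
      rw [map_mul, map_mul, map_inv, hnw] at h2
      exact mul_left_cancel (mul_right_cancel h2)
  intro x hx
  exact hfin hx

end core

theorem ced (par : ParStmt) (syl : SylStmt) (bru : BruhStmt) (opv : OpvStmt) (trv : TrvStmt)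
    (bas : BasStmt) (lng : LngStmt) (orb : OrbStmt) : CedStmt := by
  classical
  intro ℓ _ D _ _ M R h
  have := h.normal
  obtain ⟨bas1, bas2, -, -, -, -, bas7, -, -⟩ := bas ℓ D M R h
  intro c hc
  have hcom : ∀ x ∈ Subgroup.centralizer ((up R.U : Subgroup D) : Set D), ∀ u ∈ up R.U,
      x * u * x⁻¹ = u := by
    intro x hx u hu
    rw [Subgroup.mem_centralizer_iff] at hx
    rw [← hx u hu]
    group
  -- decomposition
  obtain ⟨a, m, hm, hord⟩ := Nat.exists_eq_pow_mul_and_not_dvd (orderOf_pos c).ne' ℓ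
    (Fact.out : ℓ.Prime).ne_one
  have hcop : IsCoprime ((ℓ ^ a : ℕ) : ℤ) (m : ℤ) := by
    rw [Nat.isCoprime_iff_coprime]
    exact Nat.Coprime.pow_left a ((Nat.Prime.coprime_iff_not_dvd (Fact.out : ℓ.Prime)).mpr hm)
  obtain ⟨x, y, hxy⟩ := hcop
  have hc1 : c = c ^ (y * m) * c ^ (x * (ℓ ^ a : ℕ)) := by
    rw [← zpow_add, add_comm, hxy, zpow_one]
  have hN : c ^ (((ℓ ^ a * m : ℕ)) : ℤ) = 1 := by
    rw [zpow_natCast, ← hord, pow_orderOf_eq_one]
  have hcp : c ^ (y * m) ∈ Subgroup.centralizer ((up R.U : Subgroup D) : Set D) :=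
    Subgroup.zpow_mem _ hc _
  have hcq : c ^ (x * (ℓ ^ a : ℕ)) ∈ Subgroup.centralizer ((up R.U : Subgroup D) : Set D) :=
    Subgroup.zpow_mem _ hc _
  rw [hc1]
  apply Subgroup.mul_mem_sup
  · -- the `ℓ`-part
    have hp : IsPGroup ℓ (Subgroup.zpowers (c ^ (y * m))) := by
      rintro ⟨g, z, rfl⟩
      refine ⟨a, Subtype.ext ?_⟩
      show ((c ^ (y * (m : ℤ))) ^ z) ^ (ℓ ^ a) = 1
      rw [← zpow_natCast, ← zpow_mul, ← zpow_mul]
      have e1 : y * (m : ℤ) * (z * ((ℓ ^ a : ℕ) : ℤ)) = ((ℓ ^ a * m : ℕ) : ℤ) * (y * z) := by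
        push_cast
        ring
      rw [e1, zpow_mul, hN, one_zpow]
    have hnorm : Subgroup.zpowers (c ^ (y * m)) ≤
        Subgroup.normalizer ((up R.U : Subgroup D) : Set D) := by
      apply le_normalizer
      intro x' hx' u hu
      rw [hcom x' (Subgroup.zpowers_le.mpr hcp hx') u hu]
      exact hu
    have hW : IsPGroup ℓ ((Subgroup.zpowers (c ^ (y * m)) ⊔ up R.U : Subgroup D)) :=
      hp.to_sup_of_normal_right' bas7 hnorm
    obtain ⟨-, g, -, hg⟩ := bas1 _ hW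
    have hcard : Nat.card ((Subgroup.zpowers (c ^ (y * m)) ⊔ up R.U : Subgroup D)) ≤
        Nat.card (up R.U : Subgroup D) := by
      refine Nat.card_le_card_of_injective
        (fun x : ((Subgroup.zpowers (c ^ (y * m)) ⊔ up R.U : Subgroup D)) =>
          (⟨g * x * g⁻¹, hg x x.2⟩ : (up R.U : Subgroup D))) ?_
      intro x' y' hxy'
      have h1 : g * (x' : D) * g⁻¹ = g * (y' : D) * g⁻¹ := congrArg Subtype.val hxy'
      exact Subtype.ext (mul_left_cancel (mul_right_cancel h1))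
    have heq := Subgroup.eq_of_le_of_card_ge
      (le_sup_right : up R.U ≤ Subgroup.zpowers (c ^ (y * m)) ⊔ up R.U) hcard
    rw [heq]
    exact (le_sup_left : Subgroup.zpowers (c ^ (y * m)) ≤ _) (Subgroup.mem_zpowers _)
  · -- the `ℓ'`-part
    obtain ⟨c2, hc2⟩ : ∃ c2, c2 = c ^ (x * ((ℓ ^ a : ℕ) : ℤ)) := ⟨_, rfl⟩
    have hc2m : c2 ^ m = 1 := by
      rw [hc2, ← zpow_natCast, ← zpow_mul]
      have e1 : x * ((ℓ ^ a : ℕ) : ℤ) * (m : ℤ) = ((ℓ ^ a * m : ℕ) : ℤ) * x := by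
        push_cast
        ring
      rw [e1, zpow_mul, hN, one_zpow]
    rw [← hc2] at hcq
    show c ^ (x * ((ℓ ^ a : ℕ) : ℤ)) ∈ _
    rw [← hc2]
    have hφU : ∀ u ∈ R.U, (MulAut.conjNormal c2 : MulAut M) u = u := by
      intro u hu
      apply Subtype.ext
      rw [MulAut.conjNormal_apply]
      exact hcom c2 hcq u ⟨u, hu, rfl⟩
    have hφm : (MulAut.conjNormal c2 : MulAut M) ^ m = 1 := by
      rw [← map_pow, hc2m, map_one]
    have hfix := ced_core R par syl bru opv trv lng orb _ hφU m hm hφm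
    -- the normal subgroup generated by the root groups
    have hM0 : (R.gp R.Φ).Normal := by
      rw [← Subgroup.normalizer_eq_top_iff, eq_top_iff, ← R.gen]
      apply sup_le
      · apply le_normalizer
        intro t ht x hx
        exact R.T_gp subset_rfl ht hx
      · exact Subgroup.le_normalizer
    have hcase := h.simp _ hM0
    apply h.cent
    rw [Subgroup.mem_centralizer_iff]
    rcases hcase with h1 | h1
    · exfalso
      apply h.ne
      rw [eq_bot_iff]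
      intro u hu
      rw [Subgroup.mem_bot]
      have h2 : (u : D) ∈ Subgroup.center D := h1 u (R.gp_mono R.pos_sub hu)
      obtain ⟨k, hk⟩ := (syl ℓ M R).1 ⟨u, hu⟩
      have h3 : u ^ ℓ ^ k = 1 := congrArg Subtype.val hk
      have h4 : (⟨(u : D), h2⟩ : Subgroup.center D) ^ ℓ ^ k = 1 := by
        apply Subtype.ext
        show (u : D) ^ ℓ ^ k = 1
        have := congrArg Subtype.val h3
        exact this
      have h5 : Nat.Coprime (ℓ ^ k) (Nat.card (Subgroup.center D)) :=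
        Nat.Coprime.pow_left k ((Nat.Prime.coprime_iff_not_dvd (Fact.out : ℓ.Prime)).mpr bas2)
      have h6 : orderOf (⟨(u : D), h2⟩ : Subgroup.center D) ∣ 1 := by
        rw [← h5]
        exact Nat.dvd_gcd (orderOf_dvd_of_pow_eq_one h4) (orderOf_dvd_natCard _)
      have h7 := orderOf_eq_one_iff.mp (Nat.dvd_one.mp h6)
      have h8 : (u : D) = 1 := congrArg Subtype.val h7
      exact Subtype.ext h8
    · intro x' hx'
      obtain ⟨y', hy', z, hz, h2⟩ := h1 ⟨x', hx'⟩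
      have h3 := congrArg Subtype.val (hfix y' hy')
      rw [MulAut.conjNormal_apply] at h3
      have h4 : c2 * (y' : D) = (y' : D) * c2 := by
        rw [← mul_inv_eq_iff_eq_mul]
        exact h3
      have h5 : z * c2 = c2 * z := (Subgroup.mem_center_iff.mp hz c2).symm
      show x' * c2 = c2 * x'
      have h2' : x' = (y' : D) * z := h2
      rw [h2', mul_assoc, h5, ← mul_assoc, ← h4, mul_assoc]

end Pool.Agent.PP.X1.H20
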